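import Pool.Agent.Results.MP_b62b68_gt.NoSymmetrization
import Pool.Agent.Helper876.AQ.Polar

/-!
Averages over the orthogonal group of homogeneous functions of the first column (helper774).
-/

set_option autoImplicit false

open Set Filter MeasureTheory Module
open scoped Topology ENNReal Matrix RealInnerProductSpace

namespace Pool.Agent.TH774.MK

open Pool.Agent.Results.MP_b62b68_gt.NoSymmetrization (E O haarO col col_orthonormal)

variable {n : ℕ}

/-- the Haar probability measure of `O(n)` is right invariant -/
instance haarO_right (n : ℕ) : (haarO n).IsMulRightInvariant := by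
  refine ⟨fun g => ?_⟩
  have h1 : IsProbabilityMeasure (Measure.map (fun x => x * g) (haarO n)) :=
    Measure.isProbabilityMeasure_map (measurable_mul_const g).aemeasurable
  exact Measure.isHaarMeasure_eq_of_isProbabilityMeasure _ _

/-- the action of `O(n)` -/
noncomputable def act (g : O n) : E n →ₗ[ℝ] E n := Matrix.toEuclideanLin g.1

lemma act_apply (g : O n) (x : E n) (i : Fin n) : act g x i = ∑ k, g.1 i k * x k := by
  simp [act, Matrix.toLpLin_apply, Matrix.mulVec, dotProduct]

lemma act_mul (g h : O n) (x : E n) : act (g * h) x = act g (act h x) := by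
  ext i
  simp only [act_apply, Submonoid.coe_mul, Matrix.mul_apply, Finset.sum_mul, Finset.mul_sum]
  rw [Finset.sum_comm]
  refine Finset.sum_congr rfl fun k _ => Finset.sum_congr rfl fun j _ => by ring

lemma act_single (g : O n) (k : Fin n) : act g (EuclideanSpace.single k 1) = col g k := by
  ext i
  simp [act_apply, col, PiLp.single_apply]

lemma inner_act (g : O n) (x y : E n) : ⟪act g x, act g y⟫ = ⟪x, y⟫ := by
  have hx : act g x = ∑ k, x k • col g k := by
    ext i
    simp [act_apply, col, mul_comm]
  have hy : act g y = ∑ k, y k • col g k := by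
    ext i
    simp [act_apply, col, mul_comm]
  rw [hx, hy, (col_orthonormal g).inner_sum]
  simp [PiLp.inner_apply, mul_comm]

lemma norm_act (g : O n) (x : E n) : ‖act g x‖ = ‖x‖ := by
  rw [@norm_eq_sqrt_real_inner _ _ _ (act g x), inner_act, ← @norm_eq_sqrt_real_inner _ _ _ x]

/-- the action as an isometry -/
noncomputable def actE (g : O n) : E n ≃ₗᵢ[ℝ] E n :=
  LinearIsometry.toLinearIsometryEquiv ⟨act g, norm_act g⟩ rfl

lemma actE_apply (g : O n) (x : E n) : actE g x = act g x := rfl

lemma measurable_act : Measurable fun p : O n × E n => act p.1 p.2 := by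
  have h : Measurable fun p : O n × E n => (fun i => act p.1 p.2 i : Fin n → ℝ) := by
    refine measurable_pi_lambda _ fun i => ?_
    simp only [act_apply]
    refine Finset.measurable_sum _ fun k _ => ?_
    refine Measurable.mul ?_ ?_
    · have hc : Continuous fun g : O n => g.1 i k :=
        (continuous_apply k).comp ((continuous_apply i).comp continuous_subtype_val)
      exact hc.measurable.comp measurable_fst
    · have hc : Continuous fun x : E n => x k := by fun_prop
      exact hc.measurable.comp measurable_snd
  have h2 : Measurable (WithLp.toLp 2 : (Fin n → ℝ) → E n) :=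
    (PiLp.continuous_toLp 2 _).measurable
  exact h2.comp h

/-- every unit vector is a first column -/
lemma exists_col (k : Fin n) (u : E n) (hu : ‖u‖ = 1) : ∃ h : O n, col h k = u := by
  classical
  have ho : Orthonormal ℝ (({k} : Set (Fin n)).domRestrict fun _ => u) := by
    constructor
    · rintro ⟨i, hi⟩; exact hu
    · rintro ⟨i, hi⟩ ⟨j, hj⟩ hij
      exfalso
      apply hij
      rw [mem_singleton_iff] at hi hj
      subst hi; subst hj; rfl
  obtain ⟨b, hb⟩ := ho.exists_orthonormalBasis_extension_of_card_eq
    (by rw [finrank_euclideanSpace_fin, Fintype.card_fin])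
  have hk : b k = u := hb k rfl
  set M : Matrix (Fin n) (Fin n) ℝ := Matrix.of fun i j => b j i with hM
  have hMO : M ∈ Matrix.orthogonalGroup (Fin n) ℝ := by
    rw [Matrix.mem_orthogonalGroup_iff']
    ext i j
    have h1 : ⟪b i, b j⟫ = if i = j then (1:ℝ) else 0 := by
      exact orthonormal_iff_ite.1 b.orthonormal i j
    rw [Matrix.one_apply, ← h1, PiLp.inner_apply]
    simp only [Matrix.mul_apply, Matrix.transpose_apply, hM, Matrix.of_apply]
    refine Finset.sum_congr rfl fun l _ => ?_
    simp [mul_comm]
  refine ⟨⟨M, hMO⟩, ?_⟩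
  rw [← hk]
  ext i
  rfl

/-- the average over the ball of a homogeneous function of degree `0` is its average over the
orthogonal group -/
lemma ball_average (k : Fin n) {F : E n → ℝ≥0∞} (hF : Measurable F)
    (hF0 : ∀ (r : ℝ) (x : E n), 0 < r → F (r • x) = F x) :
    ∫⁻ x in Metric.ball (0 : E n) 1, F x =
      volume (Metric.ball (0 : E n) 1) * ∫⁻ g, F (col g k) ∂(haarO n) := by
  have hn : 0 < n := Fin.pos k
  have : Nontrivial (E n) := by
    have : Nonempty (Fin n) := ⟨k⟩
    infer_instance
  have h1 : ∀ g : O n, ∫⁻ x in Metric.ball (0 : E n) 1, F (act g x) =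
      ∫⁻ x in Metric.ball (0 : E n) 1, F x := by
    intro g
    have hmp : MeasurePreserving (actE g) (volume : Measure (E n)) volume :=
      (actE g).measurePreserving
    have hpre : (actE g) ⁻¹' Metric.ball (0 : E n) 1 = Metric.ball 0 1 := by
      ext x
      simp only [mem_preimage, mem_ball_zero_iff, LinearIsometryEquiv.norm_map]
    have := (hmp.restrict_preimage (s := Metric.ball (0 : E n) 1) measurableSet_ball).lintegral_comp hF
    rw [hpre] at this
    exact this
  have h2 : ∫⁻ x in Metric.ball (0 : E n) 1, F x =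
      ∫⁻ g, (∫⁻ x in Metric.ball (0 : E n) 1, F (act g x)) ∂(haarO n) := by
    simp_rw [h1]
    simp
  have hm : Measurable fun p : O n × E n => F (act p.1 p.2) := hF.comp measurable_act
  rw [h2, lintegral_lintegral_swap hm.aemeasurable]
  have h3 : ∀ x : E n, x ≠ 0 → ∫⁻ g, F (act g x) ∂(haarO n) = ∫⁻ g, F (col g k) ∂(haarO n) := by
    intro x hx
    have hx' : 0 < ‖x‖ := norm_pos_iff.2 hx
    obtain ⟨h, hh⟩ := exists_col k (‖x‖⁻¹ • x) (by
      rw [norm_smul, norm_inv, norm_norm, inv_mul_cancel₀ hx'.ne'])
    have e : x = ‖x‖ • col h k := by rw [hh, smul_smul, mul_inv_cancel₀ hx'.ne', one_smul]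
    have h4 : ∀ g : O n, F (act g x) = F (act (g * h) (EuclideanSpace.single k 1)) := by
      intro g
      rw [act_mul, act_single]
      conv_lhs => rw [e]
      rw [map_smul, hF0 _ _ hx']
    simp_rw [h4]
    rw [lintegral_mul_right_eq_self (μ := haarO n)
      (fun g => F (act g (EuclideanSpace.single k 1))) h]
    simp_rw [act_single]
  have h5 : ∀ᵐ x : E n ∂(volume.restrict (Metric.ball (0 : E n) 1)),
      ∫⁻ g, F (act g x) ∂(haarO n) = ∫⁻ g, F (col g k) ∂(haarO n) := by
    have h0 : ∀ᵐ x : E n ∂(volume.restrict (Metric.ball (0 : E n) 1)), x ≠ 0 := by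
      refine ae_restrict_of_ae ?_
      rw [ae_iff]
      simp
    filter_upwards [h0] with x hx using h3 x hx
  rw [lintegral_congr_ae h5, lintegral_const, Measure.restrict_apply MeasurableSet.univ, univ_inter,
    mul_comm]

/-- the volume of a star body as an average over the orthogonal group -/
lemma star_average (k : Fin n) {N : E n → ℝ} (hN : Measurable N)
    (hN1 : ∀ (r : ℝ) (x : E n), 0 < r → N (r • x) = r * N x) (hN2 : ∀ x, x ≠ 0 → 0 < N x) :
    volume {x | N x < 1} =
      volume (Metric.ball (0 : E n) 1) * ∫⁻ g, ENNReal.ofReal ((N (col g k) ^ n)⁻¹) ∂(haarO n) := by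
  have : Nontrivial (E n) := by
    have : Nonempty (Fin n) := ⟨k⟩
    infer_instance
  rw [Pool.Agent.Helper876.AQ.polar_identity volume hN hN1 hN2, finrank_euclideanSpace_fin,
    ball_average k (F := fun x => ENNReal.ofReal ((‖x‖ / N x) ^ n))
      (ENNReal.measurable_ofReal.comp ((measurable_norm.div hN).pow_const n))]
  · congr 1
    refine lintegral_congr fun g => ?_
    have h1 : ‖col g k‖ = 1 := (col_orthonormal g).1 k
    rw [h1, one_div, inv_pow]
  · intro r x hr
    rw [hN1 r x hr, norm_smul, Real.norm_of_nonneg hr.le, mul_div_mul_left _ _ hr.ne']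

end Pool.Agent.TH774.MK
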