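import Pool.Agent.TH774.MK.Proj
import Pool.Agent.TH648.MK.SimpEq
import Pool.Agent.TH352.EQ.RS
import Pool.Agent.TH509.EQ.LC

/-!
Makai's inequality in Euclidean space (helper774).
-/

set_option autoImplicit false

open Set Filter MeasureTheory Module
open scoped Topology ENNReal Matrix RealInnerProductSpace Pointwise

namespace Pool.Agent.TH774.MK

open Pool.Agent.Results.MP_b62b68_gt.NoSymmetrization (E O haarO plane proj volIn)

variable {n : ℕ} {K : Set (E n)}

/-- the polar body of the difference body -/
def dpol (K : Set (E n)) : Set (E n) := {y | ∀ x ∈ K, ∀ x' ∈ K, ⟪x - x', y⟫ ≤ 1}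

/-- coordinates -/
def co (K : Set (E n)) : Set (Fin n → ℝ) := WithLp.toLp 2 ⁻¹' K

lemma co_img (K : Set (E n)) : co K = WithLp.ofLp '' K := by
  ext x
  constructor
  · intro hx; exact ⟨WithLp.toLp 2 x, hx, rfl⟩
  · rintro ⟨z, hz, rfl⟩; exact hz

lemma co_vol {A : Set (E n)} (hA : MeasurableSet A) : volume (co A) = volume A :=
  (PiLp.volume_preserving_toLp (Fin n)).measure_preimage hA.nullMeasurableSet

lemma co_dpol (K : Set (E n)) : co (dpol K) =
    {y : Fin n → ℝ | ∀ x ∈ co K, ∀ x' ∈ co K, (x - x') ⬝ᵥ y ≤ 1} := by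
  ext y
  constructor
  · intro hy x hx x' hx'
    have := hy _ hx _ hx'
    rwa [← WithLp.toLp_sub, EuclideanSpace.inner_toLp_toLp, star_trivial, dotProduct_comm] at this
  · intro hy x hx x' hx'
    have := hy (WithLp.ofLp x) hx (WithLp.ofLp x') hx'
    have h1 : x - x' = WithLp.toLp 2 (WithLp.ofLp x - WithLp.ofLp x') := rfl
    rw [h1, EuclideanSpace.inner_toLp_toLp, star_trivial, dotProduct_comm]
    exact this

lemma dpol_closed (K : Set (E n)) : IsClosed (dpol K) := by
  have : dpol K = ⋂ x ∈ K, ⋂ x' ∈ K, {y | ⟪x - x', y⟫ ≤ 1} := by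
    ext y
    simp only [dpol, mem_ofPred_eq, mem_iInter]
  rw [this]
  refine isClosed_biInter fun x _ => isClosed_biInter fun x' _ => ?_
  exact isClosed_le (by fun_prop) continuous_const

lemma dpol_convex (K : Set (E n)) : Convex ℝ (dpol K) := by
  intro y hy z hz a b ha hb hab x hx x' hx'
  rw [inner_add_right, inner_smul_right, inner_smul_right]
  have h1 := mul_le_mul_of_nonneg_left (hy x hx x' hx') ha
  have h2 := mul_le_mul_of_nonneg_left (hz x hx x' hx') hb
  linarith

lemma co_compact (hc : IsCompact K) : IsCompact (co K) := by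
  rw [co_img]; exact hc.image (PiLp.continuous_ofLp 2 _)

lemma co_convex (hv : Convex ℝ K) : Convex ℝ (co K) :=
  hv.linear_preimage (WithLp.linearEquiv 2 ℝ (Fin n → ℝ)).symm.toLinearMap

lemma co_interior (hi : (interior K).Nonempty) : (interior (co K)).Nonempty := by
  obtain ⟨z, hz⟩ := hi
  exact ⟨WithLp.ofLp z, preimage_interior_subset_interior_preimage (PiLp.continuous_toLp 2 _) hz⟩

/-- **Makai's inequality** -/
theorem makai (hZ : H712MA.S_Z) (hc : IsCompact K) (hv : Convex ℝ K) (hi : (interior K).Nonempty) :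
    ENNReal.ofReal (((n:ℝ) + 1) / n.factorial) ≤ volume K * volume (dpol K) := by
  have h := Pool.Agent.TH648.MK.makai_any hZ (co_compact hc) (co_convex hv) (co_interior hi)
  rwa [← co_dpol, co_vol hc.measurableSet, co_vol (dpol_closed K).measurableSet] at h

/-- equality in Makai's inequality -/
theorem makai_eq (hZ : H712MA.S_Z) (hc : IsCompact K) (hv : Convex ℝ K)
    (hi : (interior K).Nonempty)
    (h : volume K * volume (dpol K) ≤ ENNReal.ofReal (((n:ℝ) + 1) / n.factorial)) :
    ∃ p : Fin (n + 1) → E n, AffineIndependent ℝ p ∧ K = convexHull ℝ (range p) := by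
  rw [← co_vol hc.measurableSet, ← co_vol (dpol_closed K).measurableSet, co_dpol] at h
  obtain ⟨p, hp, hK⟩ := Pool.Agent.TH648.MK.simplex_of_eq_any Pool.Agent.TH352.EQ.t_RS
    Pool.Agent.TH509.EQ.t_LC hZ (co_compact hc) (co_convex hv) (co_interior hi) h
  set L : (Fin n → ℝ) ≃ₗ[ℝ] E n := (WithLp.linearEquiv 2 ℝ (Fin n → ℝ)).symm with hL
  refine ⟨fun i => L (p i), ?_, ?_⟩
  · exact (AffineEquiv.affineIndependent_iff (p := p) L.toAffineEquiv).2 hp
  · have h1 : K = L '' (co K) := by
      ext x
      constructor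
      · intro hx; exact ⟨WithLp.ofLp x, hx, rfl⟩
      · rintro ⟨y, hy, rfl⟩; exact hy
    have h2 : range (fun i => L (p i)) = L '' range p := by
      rw [← range_comp]; rfl
    rw [h1, hK, h2]
    exact L.toLinearMap.image_convexHull _

/-- the value for simplices -/
theorem makai_simplex {p : Fin (n + 1) → E n} (hp : AffineIndependent ℝ p)
    (hK : K = convexHull ℝ (range p)) :
    volume K * volume (dpol K) = ENNReal.ofReal (((n:ℝ) + 1) / n.factorial) := by
  have hc : IsCompact K := by
    rw [hK]; exact (finite_range p).isCompact_convexHull (𝕜 := ℝ)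
  set L : E n ≃ₗ[ℝ] (Fin n → ℝ) := WithLp.linearEquiv 2 ℝ (Fin n → ℝ) with hL
  have hp' : AffineIndependent ℝ (fun i => L (p i)) :=
    (AffineEquiv.affineIndependent_iff (p := p) L.toAffineEquiv).2 hp
  have h1 : co K = convexHull ℝ (range fun i => L (p i)) := by
    have h2 : range (fun i => L (p i)) = L '' range p := by
      rw [← range_comp]; rfl
    rw [h2, co_img, hK]
    exact L.toLinearMap.image_convexHull _
  have h := Pool.Agent.TH648.MK.simplex_value _ hp' h1
  rwa [← co_dpol, co_vol hc.measurableSet, co_vol (dpol_closed K).measurableSet] at h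

section
variable (hc : IsCompact K) (hv : Convex ℝ K) (hi : (interior K).Nonempty)
include hc hi

lemma dpol_eq : dpol K = {y | wid K y ≤ 1} := by
  ext y
  simp only [dpol, mem_ofPred_eq]
  exact (wid_le_iff hc (hi.mono interior_subset) y 1).symm

lemma vol_wid : volume {x | wid K x < 1} = volume (dpol K) := by
  have hne := hi.mono interior_subset
  refine le_antisymm (measure_mono ?_) ?_
  · rw [dpol_eq hc hi]
    intro y hy
    have hy' : wid K y < 1 := hy
    exact hy'.le
  · have h1 : volume (interior (dpol K)) = volume (dpol K) := by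
      have := (dpol_convex K).addHaar_frontier (volume : Measure (E n))
      refine le_antisymm (measure_mono interior_subset) ?_
      have h2 : dpol K ⊆ interior (dpol K) ∪ frontier (dpol K) := by
        intro y hy
        by_cases h : y ∈ interior (dpol K)
        · exact Or.inl h
        · exact Or.inr ⟨subset_closure hy, h⟩
      refine (measure_mono h2).trans ((measure_union_le _ _).trans ?_)
      rw [this, add_zero]
    rw [← h1]
    refine measure_mono fun y hy => ?_
    have hcont : Continuous fun t : ℝ => t • y := by fun_prop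
    have hopen : IsOpen ((fun t : ℝ => t • y) ⁻¹' interior (dpol K)) := isOpen_interior.preimage hcont
    obtain ⟨ε, hε, hb⟩ := Metric.isOpen_iff.1 hopen 1 (by simpa using hy)
    have h2 : (1 + ε / 2) • y ∈ dpol K := by
      refine interior_subset (hb ?_)
      rw [Metric.mem_ball, Real.dist_eq, add_sub_cancel_left, abs_of_pos (by positivity)]
      linarith
    rw [dpol_eq hc hi] at h2
    have h3 : wid K ((1 + ε / 2) • y) ≤ 1 := h2
    rw [wid_smul hc hne _ _ (by positivity)] at h3
    change wid K y < 1
    by_contra hcon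
    push Not at hcon
    nlinarith

end

lemma dpol_ne_top (hi : (interior K).Nonempty) : volume (dpol K) ≠ ⊤ := by
  obtain ⟨x, hx⟩ := hi
  obtain ⟨ε, hε, hb⟩ := Metric.isOpen_iff.1 isOpen_interior x hx
  have hsub : dpol K ⊆ Metric.closedBall 0 (2 / ε) := by
    intro y hy
    rw [mem_closedBall_zero_iff]
    by_cases hy0 : y = 0
    · rw [hy0, norm_zero]; positivity
    have hy' : 0 < ‖y‖ := norm_pos_iff.2 hy0
    have hmem : x + (ε / 2 / ‖y‖) • y ∈ K := by
      refine interior_subset (hb ?_)
      rw [Metric.mem_ball, dist_eq_norm, add_sub_cancel_left, norm_smul, Real.norm_of_nonneg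
        (by positivity), div_mul_cancel₀ _ hy'.ne']
      linarith
    have h1 := hy _ hmem x (interior_subset hx)
    rw [add_sub_cancel_left, real_inner_smul_left, real_inner_self_eq_norm_sq] at h1
    have h2 : ε / 2 / ‖y‖ * ‖y‖ ^ 2 = ε / 2 * ‖y‖ := by
      field_simp
    rw [h2] at h1
    rw [le_div_iff₀ hε]
    linarith
  exact ((Metric.isBounded_closedBall.subset hsub).measure_lt_top).ne

end Pool.Agent.TH774.MK
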