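import Pool.Agent.TH774.MK.Avg

/-!
Projections of a compact convex set on lines (helper774).
-/

set_option autoImplicit false

open Set Filter MeasureTheory Module
open scoped Topology ENNReal Matrix RealInnerProductSpace

namespace Pool.Agent.TH774.MK

open Pool.Agent.Results.MP_b62b68_gt.NoSymmetrization (E O haarO plane proj volIn col
  col_orthonormal plane_eq)

variable {n : ℕ}

/-- the width function of `K`: the largest value of `⟨x - x', u⟩`, `x, x' ∈ K` -/
noncomputable def wid (K : Set (E n)) (u : E n) : ℝ :=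
  sSup ((fun p : E n × E n => ⟪p.1 - p.2, u⟫) '' (K ×ˢ K))

section
variable {K : Set (E n)} (hc : IsCompact K) (hne : K.Nonempty)
include hc hne

lemma exists_wid (u : E n) : ∃ a ∈ K, ∃ b ∈ K, wid K u = ⟪a - b, u⟫ ∧
    ∀ x ∈ K, ⟪b, u⟫ ≤ ⟪x, u⟫ ∧ ⟪x, u⟫ ≤ ⟪a, u⟫ := by
  have hcont : ContinuousOn (fun x : E n => ⟪x, u⟫) K := by fun_prop
  obtain ⟨a, ha, ha'⟩ := hc.exists_isMaxOn hne hcont
  obtain ⟨b, hb, hb'⟩ := hc.exists_isMinOn hne hcont
  refine ⟨a, ha, b, hb, ?_, fun x hx => ⟨hb' hx, ha' hx⟩⟩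
  unfold wid
  refine IsGreatest.csSup_eq ⟨⟨(a, b), ⟨ha, hb⟩, rfl⟩, ?_⟩
  rintro _ ⟨⟨x, y⟩, ⟨hx, hy⟩, rfl⟩
  simp only [inner_sub_left]
  have h1 : ⟪x, u⟫ ≤ ⟪a, u⟫ := ha' hx
  have h2 : ⟪b, u⟫ ≤ ⟪y, u⟫ := hb' hy
  linarith

lemma wid_le_iff (u : E n) (r : ℝ) : wid K u ≤ r ↔ ∀ x ∈ K, ∀ x' ∈ K, ⟪x - x', u⟫ ≤ r := by
  obtain ⟨a, ha, b, hb, h1, h2⟩ := exists_wid hc hne u
  rw [h1]
  constructor
  · intro h x hx y hy
    rw [inner_sub_left] at h ⊢
    linarith [(h2 x hx).2, (h2 y hy).1]
  · intro h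
    exact h a ha b hb

lemma le_wid (u : E n) {x x' : E n} (hx : x ∈ K) (hx' : x' ∈ K) : ⟪x - x', u⟫ ≤ wid K u :=
  (wid_le_iff hc hne u _).1 le_rfl x hx x' hx'

lemma wid_nonneg (u : E n) : 0 ≤ wid K u := by
  obtain ⟨x, hx⟩ := hne
  have := le_wid hc ⟨x, hx⟩ u hx hx
  simpa using this

lemma wid_smul (r : ℝ) (u : E n) (hr : 0 < r) : wid K (r • u) = r * wid K u := by
  refine le_antisymm ?_ ?_
  · rw [wid_le_iff hc hne]
    intro x hx y hy
    rw [inner_smul_right]
    exact mul_le_mul_of_nonneg_left (le_wid hc hne u hx hy) hr.le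
  · rw [← le_div_iff₀' hr, wid_le_iff hc hne]
    intro x hx y hy
    rw [le_div_iff₀' hr, ← real_inner_smul_right]
    exact le_wid hc hne _ hx hy

lemma measurable_wid : Measurable (wid K) := by
  refine measurable_of_Iic fun r => ?_
  have h : wid K ⁻¹' Iic r = ⋂ x ∈ K, ⋂ x' ∈ K, {u | ⟪x - x', u⟫ ≤ r} := by
    ext u
    simp only [mem_preimage, mem_Iic, mem_iInter]
    exact wid_le_iff hc hne u r
  rw [h]
  refine IsClosed.measurableSet ?_
  refine isClosed_biInter fun x _ => isClosed_biInter fun x' _ => ?_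
  exact isClosed_le (by fun_prop) continuous_const

omit hne in
lemma wid_pos (hi : (interior K).Nonempty) {u : E n} (hu : u ≠ 0) : 0 < wid K u := by
  have hne : K.Nonempty := hi.mono interior_subset
  obtain ⟨x, hx⟩ := hi
  obtain ⟨ε, hε, hb⟩ := Metric.isOpen_iff.1 isOpen_interior x hx
  have hu' : 0 < ‖u‖ := norm_pos_iff.2 hu
  have hmem : x + (ε / 2 / ‖u‖) • u ∈ K := by
    refine interior_subset (hb ?_)
    rw [Metric.mem_ball, dist_eq_norm, add_sub_cancel_left, norm_smul, Real.norm_of_nonneg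
      (by positivity), div_mul_cancel₀ _ hu'.ne']
    linarith
  have h1 := le_wid hc hne u hmem (interior_subset hx)
  rw [add_sub_cancel_left, real_inner_smul_left, real_inner_self_eq_norm_sq] at h1
  refine lt_of_lt_of_le ?_ h1
  positivity

end

/-- the length of the projection of `K` on the line spanned by a unit vector -/
lemma volIn_line {K : Set (E n)} (hc : IsCompact K) (hv : Convex ℝ K) (hne : K.Nonempty) {u : E n}
    (hu : ‖u‖ = 1) : volIn (Submodule.span ℝ {u}) (proj K (Submodule.span ℝ {u})) =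
      ENNReal.ofReal (wid K u) := by
  obtain ⟨a, ha, b, hb, h1, h2⟩ := exists_wid hc hne u
  set φ : ℝ ≃ₗᵢ[ℝ] (Submodule.span ℝ {u}) := LinearIsometryEquiv.toSpanUnitSingleton u hu with hφ
  have hmp : MeasurePreserving φ (volume : Measure ℝ) volume := φ.measurePreserving
  have hφu : ∀ t : ℝ, ((φ t : Submodule.span ℝ {u}) : E n) = t • u := fun t => rfl
  have himg : φ ⁻¹' {y : Submodule.span ℝ {u} | (y : E n) ∈ proj K (Submodule.span ℝ {u})} =
      Icc ⟪b, u⟫ ⟪a, u⟫ := by
    ext t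
    simp only [mem_preimage, mem_ofPred_eq, proj, hφu, mem_image, mem_Icc]
    have hproj : ∀ x : E n, (Submodule.span ℝ {u}).starProjection x = ⟪x, u⟫ • u := by
      intro x
      rw [Submodule.starProjection_unit_singleton ℝ hu, real_inner_comm]
    have hu0 : u ≠ 0 := by rintro rfl; simp at hu
    simp only [hproj]
    constructor
    · rintro ⟨x, hx, hxt⟩
      have : ⟪x, u⟫ = t := smul_left_injective ℝ hu0 hxt
      rw [← this]
      exact h2 x hx
    · rintro ⟨ht1, ht2⟩
      have hconv : Convex ℝ ((fun x : E n => ⟪x, u⟫) '' K) := by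
        have := hv.linear_image (innerₛₗ ℝ u)
        have e : (fun x : E n => ⟪x, u⟫) '' K = (innerₛₗ ℝ u) '' K := by
          refine image_congr fun x _ => ?_
          rw [innerₛₗ_apply_apply, real_inner_comm]
        rw [e]; exact this
      have hoc := hconv.ordConnected
      obtain ⟨x, hx, hxt⟩ := hoc.out ⟨b, hb, rfl⟩ ⟨a, ha, rfl⟩ ⟨ht1, ht2⟩
      exact ⟨x, hx, by rw [← hxt]⟩
  unfold volIn
  have hmp' : MeasurePreserving φ.toHomeomorph.toMeasurableEquiv (volume : Measure ℝ) volume := hmp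
  have h3 := hmp'.measure_preimage_equiv
    {y : Submodule.span ℝ {u} | (y : E n) ∈ proj K (Submodule.span ℝ {u})}
  have h4 : φ.toHomeomorph.toMeasurableEquiv ⁻¹'
      {y : Submodule.span ℝ {u} | (y : E n) ∈ proj K (Submodule.span ℝ {u})} =
      Icc ⟪b, u⟫ ⟪a, u⟫ := himg
  rw [← h3, h4, Real.volume_Icc, h1, inner_sub_left]

lemma volIn_plane {K : Set (E n)} (hc : IsCompact K) (hv : Convex ℝ K) (hne : K.Nonempty)
    (hn : 0 < n) (g : O n) : (volIn (plane n 1 g) (proj K (plane n 1 g))).toReal =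
      wid K (col g ⟨0, hn⟩) := by
  have e : plane n 1 g = Submodule.span ℝ {col g ⟨0, hn⟩} := by
    rw [plane_eq (by omega : 1 ≤ n) g]
    congr 1
    ext x
    constructor
    · rintro ⟨k, rfl⟩
      rw [mem_singleton_iff]
      skip
      have : k = 0 := Subsingleton.elim _ _
      subst this
      rfl
    · rintro rfl
      exact ⟨0, rfl⟩
  rw [e, volIn_line hc hv hne ((col_orthonormal g).1 _), ENNReal.toReal_ofReal]
  exact wid_nonneg hc hne _

/-- the average over the Grassmannian of lines of the `-n`-th power of the length of the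
projection -/
lemma average_eq {K : Set (E n)} (hc : IsCompact K) (hv : Convex ℝ K)
    (hi : (interior K).Nonempty) (hn : 0 < n) :
    ∫ g, (volIn (plane n 1 g) (proj K (plane n 1 g))).toReal ^ (-(n : ℝ)) ∂(haarO n) =
      (volume {x | wid K x < 1}).toReal / (volume (Metric.ball (0 : E n) 1)).toReal := by
  have hne : K.Nonempty := hi.mono interior_subset
  have h1 : ∀ g : O n, (volIn (plane n 1 g) (proj K (plane n 1 g))).toReal ^ (-(n : ℝ)) =
      (wid K (col g ⟨0, hn⟩) ^ n)⁻¹ := by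
    intro g
    rw [volIn_plane hc hv hne hn, Real.rpow_neg (wid_nonneg hc hne _), Real.rpow_natCast]
  simp_rw [h1]
  have hmc : Measurable fun g : O n => col g ⟨0, hn⟩ := by
    have h : Measurable fun g : O n => (fun i => g.1 i ⟨0, hn⟩ : Fin n → ℝ) := by
      refine measurable_pi_lambda _ fun i => ?_
      have hc : Continuous fun g : O n => g.1 i ⟨0, hn⟩ :=
        (continuous_apply _).comp ((continuous_apply i).comp continuous_subtype_val)
      exact hc.measurable
    exact (PiLp.continuous_toLp 2 (fun _ : Fin n => ℝ)).measurable.comp h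
  have hm : Measurable fun g : O n => (wid K (col g ⟨0, hn⟩) ^ n)⁻¹ :=
    (((measurable_wid hc hne).comp hmc).pow_const n).inv
  rw [integral_eq_lintegral_of_nonneg_ae
    (Filter.Eventually.of_forall fun g => inv_nonneg.2 (pow_nonneg (wid_nonneg hc hne _) _))
    hm.aestronglyMeasurable]
  have h2 := star_average ⟨0, hn⟩ (measurable_wid hc hne)
    (fun r x hr => wid_smul hc hne r x hr) (fun x hx => wid_pos hc hi hx)
  rw [h2, ENNReal.toReal_mul, mul_div_cancel_left₀]
  have hb : 0 < (volume (Metric.ball (0 : E n) 1)).toReal :=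
    ENNReal.toReal_pos (Metric.measure_ball_pos _ _ one_pos).ne' measure_ball_lt_top.ne
  exact hb.ne'

end Pool.Agent.TH774.MK
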